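import Mathlib

set_option autoImplicit false

namespace Pool.Agent.H.MP_7acc36_lc

open Filter Equiv

/-- Uniformly computable families of permutations. -/
def UC (F : ℕ → Perm ℕ) : Prop := Computable₂ (fun n x => F n x)

theorem UC.app {α : Type} [Primcodable α] {F : ℕ → Perm ℕ} (hF : UC F) {a b : α → ℕ}
    (ha : Computable a) (hb : Computable b) : Computable (fun t => F (a t) (b t)) :=
  Computable₂.comp (f := fun n x => F n x) hF ha hb

theorem UC.const {σ : Perm ℕ} (h : Computable (σ : ℕ → ℕ)) : UC (fun _ => σ) :=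
  h.comp Computable.snd

theorem UC.mul {F G : ℕ → Perm ℕ} (hF : UC F) (hG : UC G) : UC (fun n => F n * G n) :=
  hF.app Computable.fst hG

theorem UC.pow {σ : Perm ℕ} (h : Computable (σ : ℕ → ℕ)) : UC (fun n => σ ^ n) := by
  have := Computable.nat_rec (α := ℕ × ℕ) (h := fun _ q => σ q.2) Computable.fst Computable.snd
    (h.comp (Computable.snd.comp Computable.snd)).to₂
  refine this.of_eq ?_
  rintro ⟨n, x⟩
  induction n with
  | zero => rfl
  | succ n ih =>
    simp only at ih ⊢
    rw [pow_succ', Perm.mul_apply, ← ih]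

theorem UC.comp {F : ℕ → Perm ℕ} (hF : UC F) {f : ℕ → ℕ} (hf : Computable f) :
    UC (fun n => F (f n)) :=
  hF.app (hf.comp Computable.fst) Computable.snd

theorem computable_inv {σ : Perm ℕ} (h : Computable (σ : ℕ → ℕ)) :
    Computable (fun x => σ⁻¹ x) := by
  have hex : ∀ x, ∃ n, σ n = x := fun x => ⟨σ⁻¹ x, by simp⟩
  have h1 : ComputablePred (fun p : ℕ × ℕ => σ p.2 = p.1) :=
    ⟨inferInstance, (Primrec.eq.decide).to_comp.comp (h.comp Computable.snd) Computable.fst⟩
  refine (Computable.find (P := fun x n => σ n = x) h1 hex).of_eq ?_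
  intro x
  have := Nat.find_spec (hex x)
  rw [Perm.eq_inv_iff_eq]
  exact this

/-- The words of the approximate solutions. -/
def W0 (j : ℕ) : List ℕ :=
  Nat.rec [] (fun _ w => 0 :: (w.map Nat.succ ++ w.map Nat.succ ++ w.map Nat.succ ++
    w.map Nat.succ ++ w.map Nat.succ ++ w.map Nat.succ)) j

theorem W0_succ (j : ℕ) : W0 (j + 1) = 0 :: ((W0 j).map Nat.succ ++ (W0 j).map Nat.succ ++
    (W0 j).map Nat.succ ++ (W0 j).map Nat.succ ++ (W0 j).map Nat.succ ++ (W0 j).map Nat.succ) := rfl

theorem W0_primrec : Primrec W0 := by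
  have hm : Primrec (fun p : ℕ × List ℕ => p.2.map Nat.succ) :=
    Primrec.list_map Primrec.snd (Primrec.succ.comp Primrec.snd).to₂
  exact Primrec.nat_rec₁ _ (Primrec.list_cons.comp (Primrec.const 0)
    (Primrec.list_append.comp (Primrec.list_append.comp (Primrec.list_append.comp
      (Primrec.list_append.comp (Primrec.list_append.comp hm hm) hm) hm) hm) hm)).to₂

theorem W0_len (j : ℕ) : (W0 j).length ≤ 7 ^ j := by
  induction j with
  | zero => simp [W0]
  | succ j ih =>
    rw [W0_succ, pow_succ]
    have : 0 < 7 ^ j := by positivity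
    simp only [List.length_cons, List.length_append, List.length_map]
    omega

theorem W0_filter (j i : ℕ) : (W0 (j + i)).filter (· < j) = W0 j := by
  induction j with
  | zero => simp [W0]
  | succ j ih =>
    have h : ((W0 (j + i)).map Nat.succ).filter (· < j + 1) = (W0 j).map Nat.succ := by
      rw [List.filter_map, ← ih]
      congr 2
      funext a
      simp
    rw [show j + 1 + i = (j + i) + 1 by omega, W0_succ, W0_succ, List.filter_cons_of_pos (by simp)]
    simp only [List.filter_append, h]

/-- Evaluation of a word. -/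
def ev (g : ℕ → Perm ℕ) (w : List ℕ) : Perm ℕ := (w.map g).prod

theorem ev_cons (g : ℕ → Perm ℕ) (a : ℕ) (w : List ℕ) (y : ℕ) :
    ev g (a :: w) y = g a (ev g w y) := by
  simp [ev]

theorem ev_W0 (g : ℕ → Perm ℕ) (j : ℕ) :
    ev g (W0 (j + 1)) = g 0 * (ev (fun i => g (i + 1)) (W0 j)) ^ 6 := by
  have h : ((W0 j).map Nat.succ).map g = (W0 j).map (fun i => g (i + 1)) := by
    rw [List.map_map]; rfl
  simp only [ev, W0_succ, List.map_cons, List.map_append, List.prod_cons, List.prod_append, h,
    pow_succ, pow_zero, one_mul]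

theorem ev_inv (g : ℕ → Perm ℕ) (w : List ℕ) :
    (ev g w)⁻¹ = ev (fun i => (g i)⁻¹) w.reverse := by
  simp [ev, List.prod_inv_reverse, List.map_reverse, Function.comp_def]

theorem ev_computable (g : ℕ → Perm ℕ) (hg : UC g) :
    Computable (fun p : List ℕ × ℕ => ev g p.1 p.2) := by
  have h1 := Computable.nat_rec (α := List ℕ × ℕ)
    (h := fun p q => g (p.1.reverse.getD q.1 0) q.2)
    (Computable.list_length.comp Computable.fst) Computable.snd
    (hg.app ((Primrec.list_getD 0).to_comp.comp
      (Computable.list_reverse.comp (Computable.fst.comp Computable.fst))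
      (Computable.fst.comp Computable.snd)) (Computable.snd.comp Computable.snd)).to₂
  refine h1.of_eq ?_
  rintro ⟨w, y⟩
  have key : ∀ n, n ≤ w.length → Nat.rec (motive := fun _ => ℕ) y
      (fun i z => g (w.reverse.getD i 0) z) n = ev g (w.reverse.take n).reverse y := by
    intro n
    induction n with
    | zero => intro _; simp [ev]
    | succ n ih =>
      intro hn
      have h2 : n < w.reverse.length := by simpa using hn
      rw [List.take_add_one, List.getElem?_eq_getElem h2]
      simp only [Option.toList_some, List.reverse_append, List.reverse_singleton,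
        List.singleton_append, ev_cons]
      rw [← ih (by omega), List.getD_eq_getElem _ _ h2]
  have := key w.length le_rfl
  rw [List.take_of_length_le (by simp), List.reverse_reverse] at this
  exact this

theorem stab (g : ℕ → Perm ℕ) (j C L y : ℕ) (hfix : ∀ i, j ≤ i → ∀ z < C, g i z = z)
    (hreach : ∀ u : List ℕ, (∀ a ∈ u, a < j) → u.length ≤ L → ev g u y < C) (w : List ℕ)
    (hw : (w.filter (· < j)).length ≤ L) : ev g w y = ev g (w.filter (· < j)) y := by
  induction w with
  | nil => rfl
  | cons a w ih =>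
    by_cases ha : a < j
    · rw [List.filter_cons_of_pos (by simpa using ha)] at hw ⊢
      rw [ev_cons, ev_cons, ih (by simp at hw; omega)]
    · rw [List.filter_cons_of_neg (by simpa using ha)] at hw ⊢
      rw [ev_cons, ih hw]
      exact hfix a (not_lt.1 ha) _ (hreach _ (fun b hb => by simpa using (List.mem_filter.1 hb).2) hw)

theorem reach (κ : ℕ → Perm ℕ) (V : ℕ → ℕ) (hV : ∀ z, z ≤ V z)
    (hκ : ∀ z i y, i ≤ z → y ≤ z → κ i y ≤ V z) (b : ℕ → ℕ) (j z y : ℕ) (hb : ∀ a < j, b a ≤ z)
    (hy : y ≤ z) (u : List ℕ) (hu : ∀ a ∈ u, a < j) :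
    ev (fun a => κ (b a)) u y ≤ V^[u.length] z := by
  induction u with
  | nil => simpa [ev] using hy
  | cons a u ih =>
    rw [ev_cons, List.length_cons, Function.iterate_succ_apply']
    refine hκ _ _ _ ((hb a (hu a (by simp))).trans ?_) (ih (fun c hc => hu c (by simp [hc])))
    exact Function.monotone_iterate_of_id_le hV (Nat.zero_le _) z

theorem exists_V (κ : ℕ → Perm ℕ) (h1 : UC κ) (h2 : UC (fun n => (κ n)⁻¹)) :
    ∃ V : ℕ → ℕ, Computable V ∧ (∀ z, z ≤ V z) ∧ (∀ z i y, i ≤ z → y ≤ z → κ i y ≤ V z) ∧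
      ∀ z i y, i ≤ z → y ≤ z → (κ i)⁻¹ y ≤ V z := by
  let α : ℕ → ℕ := fun t => κ t.unpair.1 t.unpair.2 + (κ t.unpair.1)⁻¹ t.unpair.2
  have hα : Computable α :=
    Primrec.nat_add.to_comp.comp
      (h1.app (Computable.fst.comp Computable.unpair)
        (Computable.snd.comp Computable.unpair))
      (h2.app (Computable.fst.comp Computable.unpair)
        (Computable.snd.comp Computable.unpair))
  let S : ℕ → ℕ := fun n => Nat.rec 0 (fun t acc => acc + α t) n
  have hS : Computable S :=
    Computable.nat_rec (h := fun _ q => q.2 + α q.1) Computable.id (Computable.const 0)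
      (Primrec.nat_add.to_comp.comp (Computable.snd.comp Computable.snd)
        (hα.comp (Computable.fst.comp Computable.snd))).to₂
  have hle : ∀ n t, t < n → α t ≤ S n := by
    intro n
    induction n with
    | zero => intro t ht; omega
    | succ n ih =>
      intro t ht
      show α t ≤ S n + α n
      rcases Nat.lt_succ_iff_lt_or_eq.1 ht with h | rfl
      · have := ih t h; omega
      · omega
  have key : ∀ z i y, i ≤ z → y ≤ z → κ i y + (κ i)⁻¹ y ≤ S ((z + 1) * (z + 1)) := by
    intro z i y hi hy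
    have h3 := Nat.pair_lt_max_add_one_sq i y
    have h4 : (max i y + 1) ^ 2 ≤ (z + 1) * (z + 1) := by
      rw [← pow_two]
      exact Nat.pow_le_pow_left (by omega) 2
    simpa [α] using hle _ _ (h3.trans_le h4)
  refine ⟨fun z => z + S ((z + 1) * (z + 1)), Primrec.nat_add.to_comp.comp Computable.id
    (hS.comp (Primrec.nat_mul.to_comp.comp Computable.succ Computable.succ)), fun z => by simp,
    fun z i y hi hy => ?_, fun z i y hi hy => ?_⟩
  · have := key z i y hi hy
    show κ i y ≤ z + S ((z + 1) * (z + 1))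
    omega
  · have := key z i y hi hy
    show (κ i)⁻¹ y ≤ z + S ((z + 1) * (z + 1))
    omega

theorem lim_mul {u v : ℕ → Perm ℕ} {a b : ℕ → ℕ} (hu : ∀ y, ∀ᶠ j in atTop, u j y = a y)
    (hv : ∀ y, ∀ᶠ j in atTop, v j y = b y) (y : ℕ) :
    ∀ᶠ j in atTop, (u j * v j) y = a (b y) := by
  filter_upwards [hv y, hu (b y)] with j h1 h2
  rw [Perm.mul_apply, h1, h2]

theorem solve (κ : ℕ → Perm ℕ) (h1 : UC κ) (h2 : UC (fun n => (κ n)⁻¹))
    (hfix : ∀ N z, z < N → κ N z = z) (K : Subgroup (Perm ℕ)) (hK : ∀ n, κ n ∈ K) :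
    ∃ (B : ℕ → ℕ) (x : ℕ → Perm ℕ), (∀ N, Computable (x N : ℕ → ℕ)) ∧
      (∀ N, x N = κ (B N) * x (N + 1) ^ 6) ∧
      ∀ N, ∃ u : ℕ → Perm ℕ, (∀ j, u j ∈ K) ∧ ∀ y, ∀ᶠ j in atTop, u j y = x N y := by
  obtain ⟨V, hVc, hV, hV1, hV2⟩ := exists_V κ h1 h2
  let B : ℕ → ℕ := fun M => Nat.rec 0 (fun m b => V^[7 ^ (m + 1)] (b + 1) + 1) M
  have hB : ∀ m, B (m + 1) = V^[7 ^ (m + 1)] (B m + 1) + 1 := fun m => rfl
  have hit : Computable (fun p : ℕ × ℕ => V^[p.1] p.2) := by
    refine (Computable.nat_rec (α := ℕ × ℕ) (h := fun _ q => V q.2) Computable.fst Computable.snd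
      (hVc.comp (Computable.snd.comp Computable.snd)).to₂).of_eq ?_
    rintro ⟨n, z⟩
    induction n with
    | zero => rfl
    | succ n ih =>
      simp only at ih ⊢
      rw [Function.iterate_succ_apply', ← ih]
  have hpow : Computable (fun m : ℕ => 7 ^ (m + 1)) :=
    ((Primrec₂.unpaired'.1 Nat.Primrec.pow).comp (Primrec.const 7) Primrec.succ).to_comp
  have hBc : Computable B :=
    Computable.nat_rec (h := fun _ q => V^[7 ^ (q.1 + 1)] (q.2 + 1) + 1) Computable.id
      (Computable.const 0) (Computable.succ.comp (hit.comp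
        ((hpow.comp (Computable.fst.comp Computable.snd)).pair
          (Computable.succ.comp (Computable.snd.comp Computable.snd))))).to₂
  have hBs : StrictMono B := strictMono_nat_of_lt_succ (fun m => by
    have : B m + 1 ≤ V^[7 ^ (m + 1)] (B m + 1) :=
      Function.monotone_iterate_of_id_le hV (Nat.zero_le _) _
    rw [hB]; omega)
  have gen : ∀ (κ' : ℕ → Perm ℕ), (∀ N z, z < N → κ' N z = z) →
      (∀ z i y, i ≤ z → y ≤ z → κ' i y ≤ V z) → ∀ (N y : ℕ) (w : List ℕ),
      (w.filter (· < y + 1)).length ≤ 7 ^ (y + 1) →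
      ev (fun a => κ' (B (N + a))) w y = ev (fun a => κ' (B (N + a))) (w.filter (· < y + 1)) y := by
    intro κ' h3 h4 N y w hw
    refine stab _ (y + 1) (B (N + y + 1)) (7 ^ (y + 1)) y ?_ ?_ w hw
    · intro i hi z hz
      exact h3 _ _ (hz.trans_le (hBs.monotone (show N + y + 1 ≤ N + i by omega)))
    · intro u hu hl
      have h5 := reach κ' V hV h4 (fun a => B (N + a)) (y + 1) (B (N + y) + 1) y
        (fun a ha => (hBs.monotone (by omega)).trans (Nat.le_succ _))
        ((Nat.le_add_left y N).trans ((hBs.id_le _).trans (Nat.le_succ _))) u hu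
      have h6 : V^[u.length] (B (N + y) + 1) ≤ V^[7 ^ (N + y + 1)] (B (N + y) + 1) :=
        Function.monotone_iterate_of_id_le hV
          (hl.trans (Nat.pow_le_pow_right (by norm_num) (by omega))) _
      rw [hB]
      omega
  let u : ℕ → ℕ → Perm ℕ := fun N j => ev (fun a => κ (B (N + a))) (W0 j)
  have hu : ∀ N y, ∀ᶠ j in atTop, u N j y = u N (y + 1) y := by
    intro N y
    filter_upwards [eventually_ge_atTop (y + 1)] with j hj
    obtain ⟨i, rfl⟩ := Nat.exists_eq_add_of_le hj
    have := gen κ hfix hV1 N y (W0 (y + 1 + i)) (by rw [W0_filter]; exact W0_len _)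
    rw [W0_filter] at this
    exact this
  have hu' : ∀ N y, ∀ᶠ j in atTop, (u N j)⁻¹ y = (u N (y + 1))⁻¹ y := by
    intro N y
    filter_upwards [eventually_ge_atTop (y + 1)] with j hj
    obtain ⟨i, rfl⟩ := Nat.exists_eq_add_of_le hj
    have := gen (fun n => (κ n)⁻¹) (fun N z hz => by
      rw [Perm.inv_eq_iff_eq, hfix N z hz]) hV2 N y (W0 (y + 1 + i)).reverse (by
        rw [List.filter_reverse, W0_filter, List.length_reverse]; exact W0_len _)
    rw [List.filter_reverse, W0_filter] at this
    simp only [u, ev_inv]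
    exact this
  let x : ℕ → Perm ℕ := fun N =>
    { toFun := fun y => u N (y + 1) y
      invFun := fun y => (u N (y + 1))⁻¹ y
      left_inv := fun y => by
        obtain ⟨j, hj⟩ := (lim_mul (hu' N) (hu N) y).exists
        simpa using hj.symm
      right_inv := fun y => by
        obtain ⟨j, hj⟩ := (lim_mul (hu N) (hu' N) y).exists
        simpa using hj.symm }
  have hx : ∀ N y, ∀ᶠ j in atTop, u N j y = x N y := hu
  refine ⟨B, x, fun N => ?_, fun N => ?_, fun N => ⟨u N, fun j => ?_, hx N⟩⟩
  · exact (ev_computable _ (h1.comp (hBc.comp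
      (Primrec.nat_add.to_comp.comp (Computable.const N) Computable.id)))).comp
      ((W0_primrec.to_comp.comp Computable.succ).pair Computable.id)
  · have hp : ∀ (n y : ℕ), ∀ᶠ j in atTop, (u (N + 1) j ^ n) y = (x (N + 1) ^ n) y := by
      intro n
      induction n with
      | zero => intro y; simp
      | succ n ih =>
        intro y
        simp only [pow_succ]
        exact lim_mul ih (hx (N + 1)) y
    ext y
    obtain ⟨j, h3, h4⟩ := ((tendsto_add_atTop_nat 1).eventually (hx N y)).and (hp 6 y) |>.exists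
    rw [← h3, Perm.mul_apply, ← h4]
    have h5 : (fun i => κ (B (N + (i + 1)))) = fun a => κ (B (N + 1 + a)) := by
      funext i
      rw [show N + (i + 1) = N + 1 + i by omega]
    simp only [u, ev_W0, Perm.mul_apply, add_zero, h5]
  · exact Subgroup.list_prod_mem _ (fun σ hσ => by
      obtain ⟨a, -, rfl⟩ := List.mem_map.1 hσ
      exact hK _)

theorem fix_test (F : ℕ → Perm ℕ) (hF : UC F) :
    ∃ φ : ℕ → ℕ → Bool, Computable₂ φ ∧ ∀ n N, φ n N = true ↔ ∀ z < N, F n z = z := by
  refine ⟨fun n N => Nat.rec true (fun y acc => acc && decide (F n y = y)) N, ?_, ?_⟩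
  · exact Computable.nat_rec (α := ℕ × ℕ) (h := fun p q => q.2 && decide (F p.1 q.1 = q.1))
      Computable.snd (Computable.const true)
      (Primrec.and.to_comp.comp (Computable.snd.comp Computable.snd)
        ((Primrec.eq.decide).to_comp.comp
          (hF.app (Computable.fst.comp Computable.fst)
            (Computable.fst.comp Computable.snd)) (Computable.fst.comp Computable.snd))).to₂
  · intro n N
    induction N with
    | zero => simp
    | succ N ih =>
      simp only [Bool.and_eq_true, decide_eq_true_eq] at ih ⊢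
      rw [ih]
      constructor
      · rintro ⟨h1, h2⟩ z hz
        rcases Nat.lt_succ_iff_lt_or_eq.1 hz with h | rfl
        · exact h1 z h
        · exact h2
      · intro h
        exact ⟨fun z hz => h z (by omega), h N (by omega)⟩

theorem select (F : ℕ → Perm ℕ) (hF : UC F) (hund : ¬ ComputablePred (fun n => F n = 1)) :
    ∃ f : ℕ → ℕ, Computable f ∧ ∀ N, F (f N) ≠ 1 ∧ ∀ z < N, F (f N) z = z := by
  obtain ⟨φ, hφ, h1⟩ := fix_test F hF
  have hex : ∀ N, ∃ t : ℕ, (φ t.unpair.1 N && !decide (F t.unpair.1 t.unpair.2 = t.unpair.2))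
      = true := by
    intro N
    by_contra hcon
    apply hund
    rw [ComputablePred.computable_iff]
    refine ⟨fun n => φ n N, hφ.comp Computable.id (Computable.const N), ?_⟩
    funext n
    apply propext
    rw [h1]
    constructor
    · intro h z _
      rw [h]; rfl
    · intro h
      ext z
      by_contra hz
      exact hcon ⟨Nat.pair n z, by simpa [h1, hz] using ⟨h, hz⟩⟩
  have hc : ComputablePred (fun p : ℕ × ℕ => (φ p.2.unpair.1 p.1 &&
      !decide (F p.2.unpair.1 p.2.unpair.2 = p.2.unpair.2)) = true) := by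
    rw [ComputablePred.computable_iff]
    have a1 : Computable (fun p : ℕ × ℕ => p.2.unpair.1) :=
      Computable.fst.comp (Computable.unpair.comp Computable.snd)
    have a2 : Computable (fun p : ℕ × ℕ => p.2.unpair.2) :=
      Computable.snd.comp (Computable.unpair.comp Computable.snd)
    exact ⟨_, Primrec.and.to_comp.comp (hφ.comp a1 Computable.fst)
      (Primrec.not.to_comp.comp ((Primrec.eq.decide).to_comp.comp
        (hF.app a1 a2) a2)), rfl⟩
  refine ⟨fun N => (Nat.find (hex N)).unpair.1,
    Computable.fst.comp (Computable.unpair.comp (Computable.find hc hex)), fun N => ?_⟩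
  have := Nat.find_spec (hex N)
  beta_reduce
  generalize Nat.find (hex N) = t at this ⊢
  simp only [Bool.and_eq_true, h1, Bool.not_eq_true', decide_eq_false_iff_not] at this
  refine ⟨fun h => this.2 ?_, this.1⟩
  rw [h]; rfl

end Pool.Agent.H.MP_7acc36_lc
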