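import Pool.Agent.H.MP_7acc36_lc.A

set_option autoImplicit false

namespace Pool.Agent.H.MP_7acc36_lc

open Filter Equiv

theorem UC.inv {F : ℕ → Perm ℕ} (hF : UC F) : UC (fun n => (F n)⁻¹) := by
  have hex : ∀ t : ℕ × ℕ, ∃ n, F t.1 n = t.2 := fun t => ⟨(F t.1)⁻¹ t.2, by simp⟩
  have h1 : ComputablePred (fun p : (ℕ × ℕ) × ℕ => F p.1.1 p.2 = p.1.2) :=
    ⟨inferInstance, (Primrec.eq.decide).to_comp.comp
      (hF.app (Computable.fst.comp Computable.fst) Computable.snd)
      (Computable.snd.comp Computable.fst)⟩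
  refine (Computable.find (P := fun (t : ℕ × ℕ) n => F t.1 n = t.2) h1 hex).of_eq ?_
  intro x
  have := Nat.find_spec (hex x)
  show _ = (F x.1)⁻¹ x.2
  rw [Perm.eq_inv_iff_eq]
  exact this

theorem int_six (b : ℕ → ℤ) (h : ∀ N, b N = 6 * b (N + 1)) (N : ℕ) : b N = 0 := by
  have h1 : ∀ M, b N = 6 ^ M * b (N + M) := by
    intro M
    induction M with
    | zero => simp
    | succ M ih => rw [ih, h (N + M), pow_succ, mul_assoc, add_assoc]
  by_contra h0
  have h2 : (6 : ℤ) ^ (b N).natAbs ∣ b N := ⟨_, h1 _⟩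
  have h3 := Int.natAbs_le_of_dvd_ne_zero h2 h0
  rw [Int.natAbs_pow] at h3
  exact absurd h3 (not_le.2 (Nat.lt_pow_self (by decide)))

theorem pow_six (σ : Perm ℕ) (h : ∀ a, σ a / 3 = a / 3) : σ ^ 6 = 1 := by
  ext a
  have h1 := h a
  have h2 := h (σ a)
  have h3 := h (σ (σ a))
  have h4 : σ a = a ∨ σ (σ a) = a ∨ σ (σ (σ a)) = a := by
    have : σ a = a ∨ σ (σ a) = a ∨ σ (σ (σ a)) = a ∨ σ (σ a) = σ a ∨ σ (σ (σ a)) = σ a ∨
      σ (σ (σ a)) = σ (σ a) := by omega
    simp only [EmbeddingLike.apply_eq_iff_eq] at this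
    tauto
  rcases h4 with h4 | h4 | h4 <;> simp [pow_succ, h4]

/-- Shift on the integers coded as naturals. -/
def sh (n : ℕ) : ℕ := if n % 2 = 0 then n + 2 else if n = 1 then 0 else n - 2

/-- Inverse shift. -/
def shi (n : ℕ) : ℕ := if n % 2 = 1 then n + 2 else if n = 0 then 1 else n - 2

/-- The coded integer. -/
def zv (n : ℕ) : ℤ := if n % 2 = 0 then (n : ℤ) / 2 else -(((n : ℤ) + 1) / 2)

theorem sh_shi (n : ℕ) : sh (shi n) = n := by
  unfold sh shi; split_ifs <;> first | omega | contradiction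

theorem shi_sh (n : ℕ) : shi (sh n) = n := by
  unfold sh shi; split_ifs <;> first | omega | contradiction

theorem sh_inj {a b : ℕ} (h : sh a = sh b) : a = b := by
  rw [← shi_sh a, h, shi_sh]

theorem zv_sh (n : ℕ) : zv (sh n) = zv n + 1 := by
  unfold sh zv; split_ifs <;> omega

theorem zv_inj {a b : ℕ} (h : zv a = zv b) : a = b := by
  unfold zv at h; split_ifs at h <;> omega

theorem sh_primrec : Primrec sh :=
  Primrec.ite (Primrec.eq.comp (Primrec.nat_mod.comp Primrec.id (Primrec.const 2)) (Primrec.const 0))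
    (Primrec.nat_add.comp Primrec.id (Primrec.const 2))
    (Primrec.ite (Primrec.eq.comp Primrec.id (Primrec.const 1)) (Primrec.const 0)
      (Primrec.nat_sub.comp Primrec.id (Primrec.const 2)))

/-- Column of a point. -/
def col (n : ℕ) : ℕ := (n / 3).unpair.1

/-- Row of a point. -/
def row (n : ℕ) : ℕ := (n / 3).unpair.2

theorem col_primrec : Primrec col :=
  Primrec.fst.comp (Primrec.unpair.comp (Primrec.nat_div.comp Primrec.id (Primrec.const 3)))

theorem row_primrec : Primrec row :=
  Primrec.snd.comp (Primrec.unpair.comp (Primrec.nat_div.comp Primrec.id (Primrec.const 3)))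

theorem pt_div (x c : ℕ) (hc : c < 3) : (3 * x + c) / 3 = x := by omega

theorem col_pt (a b c : ℕ) (hc : c < 3) : col (3 * Nat.pair a b + c) = a := by
  simp [col, pt_div _ _ hc]

theorem row_pt (a b c : ℕ) (hc : c < 3) : row (3 * Nat.pair a b + c) = b := by
  simp [row, pt_div _ _ hc]

theorem pair_col_row (n : ℕ) : Nat.pair (col n) (row n) = n / 3 := Nat.pair_unpair _

/-- The relations of the structure. -/
def rr (i : ℕ) (l : List ℕ) : Bool :=
  decide (l.length = 2 ∧ col (l.getD 1 0) = sh (col (l.getD 0 0)) ∧ row (l.getD 0 0) = i)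

theorem rr_computable : Computable₂ rr := by
  have g : ∀ k : ℕ, Primrec (fun p : ℕ × List ℕ => p.2.getD k 0) := fun k =>
    (Primrec.list_getD 0).comp Primrec.snd (Primrec.const k)
  have : PrimrecPred (fun p : ℕ × List ℕ => p.2.length = 2 ∧
      col (p.2.getD 1 0) = sh (col (p.2.getD 0 0)) ∧ row (p.2.getD 0 0) = p.1) :=
    (Primrec.eq.comp (Primrec.list_length.comp Primrec.snd) (Primrec.const 2)).and
      ((Primrec.eq.comp (col_primrec.comp (g 1)) (sh_primrec.comp (col_primrec.comp (g 0)))).and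
        (Primrec.eq.comp (row_primrec.comp (g 0)) Primrec.fst))
  exact this.decide.to_comp

/-- The group of computable automorphisms of the structure. -/
def GG : Subgroup (Perm ℕ) where
  carrier := {σ | Computable (σ : ℕ → ℕ) ∧ ∀ i l, rr i (l.map σ) = rr i l}
  mul_mem' := by
    rintro σ τ ⟨h1, h2⟩ ⟨h3, h4⟩
    refine ⟨h1.comp h3, fun i l => ?_⟩
    rw [Perm.coe_mul, ← List.map_map, h2, h4]
  one_mem' := ⟨Computable.id, fun i l => by simp⟩
  inv_mem' := by
    rintro σ ⟨h1, h2⟩
    refine ⟨computable_inv h1, fun i l => ?_⟩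
    rw [← h2, List.map_map]
    congr 1
    simp

theorem memG (σ : Perm ℕ) (hc : Computable (σ : ℕ → ℕ)) (h1 : ∀ a, row (σ a) = row a)
    (h2 : ∀ a b, col (σ b) = sh (col (σ a)) ↔ col b = sh (col a)) : σ ∈ GG := by
  refine ⟨hc, fun i l => ?_⟩
  match l with
  | [] => rfl
  | [_] => simp [rr]
  | [a, b] => simp [rr, h1, h2]
  | _ :: _ :: _ :: _ => simp [rr]

theorem G_spec (σ : Perm ℕ) (h : σ ∈ GG) (a b : ℕ) (hab : col b = sh (col a)) :
    col (σ b) = sh (col (σ a)) ∧ row (σ a) = row a := by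
  have := h.2 (row a) [a, b]
  simpa [rr, hab] using this

theorem G_shift (σ : Perm ℕ) (h : σ ∈ GG) :
    ∃ τ : ℤ, ∀ a, zv (col (σ a)) = zv (col a) + τ := by
  let D : ℕ → ℤ := fun a => zv (col (σ a)) - zv (col a)
  have hD : ∀ a b, col b = sh (col a) → D b = D a := by
    intro a b hab
    simp only [D, (G_spec σ h a b hab).1, hab, zv_sh]
    ring
  let e : ℕ → ℕ := fun x => 3 * Nat.pair x 0 + 0
  have he : ∀ x, col (e x) = x := fun x => col_pt _ _ _ (by norm_num)
  have h1 : ∀ a, D a = D (e (col a)) := by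
    intro a
    rw [hD (e (shi (col a))) a (by rw [he, sh_shi]),
      hD (e (shi (col a))) (e (col a)) (by rw [he, he, sh_shi])]
  have h2 : ∀ x, D (e (sh x)) = D (e x) := fun x => hD _ _ (by rw [he, he])
  have h3 : ∀ k, D (e (2 * k)) = D (e 0) ∧ D (e (2 * k + 1)) = D (e 0) := by
    intro k
    induction k with
    | zero => exact ⟨rfl, (h2 1).symm⟩
    | succ k ih =>
      constructor
      · rw [← ih.1, ← h2 (2 * k)]
        congr 2
        unfold sh; split_ifs <;> omega
      · rw [← ih.2, ← h2 (2 * (k + 1) + 1)]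
        congr 2
        unfold sh; split_ifs <;> omega
  refine ⟨D (e 0), fun a => ?_⟩
  have h4 : D a = D (e 0) := by
    rw [h1]
    obtain ⟨k, hk | hk⟩ := Nat.even_or_odd' (col a)
    · rw [hk]; exact (h3 k).1
    · rw [hk]; exact (h3 k).2
  rw [← h4]
  simp [D]

theorem G_law (y : ℕ → GG) (h : ∀ N, y N = y (N + 1) ^ 6) (N : ℕ) : y N = 1 := by
  choose τ hτ using fun N => G_shift (y N) (y N).2
  have hp : ∀ N (n : ℕ) a, zv (col (((y N : Perm ℕ) ^ n) a)) = zv (col a) + n * τ N := by
    intro N n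
    induction n with
    | zero => simp
    | succ n ih =>
      intro a
      rw [pow_succ', Perm.mul_apply, hτ, ih]
      push_cast; ring
  have h0 : ∀ N, τ N = 0 := int_six τ (fun N => by
    have h1 := hτ N 0
    rw [h N, SubgroupClass.coe_pow, hp] at h1
    push_cast at h1
    linarith)
  rw [h N]
  apply Subtype.ext
  rw [SubgroupClass.coe_pow]
  refine pow_six _ (fun a => ?_)
  have h1 := hτ (N + 1) a
  rw [h0, add_zero] at h1
  have h2 := (G_spec _ (y (N + 1)).2 a (3 * Nat.pair (sh (col a)) 0 + 0)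
    (col_pt _ _ _ (by norm_num))).2
  rw [← pair_col_row, ← pair_col_row, zv_inj h1, h2]

/-- The shift automorphism. -/
def sP : Perm ℕ where
  toFun n := 3 * Nat.pair (sh (col n)) (row n) + n % 3
  invFun n := 3 * Nat.pair (shi (col n)) (row n) + n % 3
  left_inv n := by
    have h : n % 3 < 3 := Nat.mod_lt _ (by norm_num)
    simp only [col_pt _ _ _ h, row_pt _ _ _ h, shi_sh, pair_col_row]
    omega
  right_inv n := by
    have h : n % 3 < 3 := Nat.mod_lt _ (by norm_num)
    simp only [col_pt _ _ _ h, row_pt _ _ _ h, sh_shi, pair_col_row]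
    omega

theorem sP_apply (n : ℕ) : sP n = 3 * Nat.pair (sh (col n)) (row n) + n % 3 := rfl

theorem col_sP (n : ℕ) : col (sP n) = sh (col n) := col_pt _ _ _ (Nat.mod_lt _ (by norm_num))

theorem sP_mem : sP ∈ GG := by
  refine memG _ ?_ (fun a => row_pt _ _ _ (Nat.mod_lt _ (by norm_num))) (fun a b => ?_)
  · exact (Primrec.nat_add.comp (Primrec.nat_mul.comp (Primrec.const 3)
      (Primrec₂.natPair.comp (sh_primrec.comp col_primrec) row_primrec))
      (Primrec.nat_mod.comp Primrec.id (Primrec.const 3))).to_comp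
  · rw [col_sP, col_sP]
    exact ⟨sh_inj, fun h => by rw [h]⟩

/-- Swap of two points in every cell. -/
def tw (c n : ℕ) : ℕ := if n % 3 = c then n + 1 else if n % 3 = c + 1 then n - 1 else n

theorem tw_div (c n : ℕ) (hc : c < 2) : tw c n / 3 = n / 3 := by
  unfold tw; split_ifs <;> omega

theorem tw_tw (c n : ℕ) (hc : c < 2) : tw c (tw c n) = n := by
  unfold tw; split_ifs <;> omega

theorem tw_primrec (c : ℕ) : Primrec (tw c) :=
  Primrec.ite (Primrec.eq.comp (Primrec.nat_mod.comp Primrec.id (Primrec.const 3)) (Primrec.const c))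
    Primrec.succ
    (Primrec.ite (Primrec.eq.comp (Primrec.nat_mod.comp Primrec.id (Primrec.const 3))
      (Primrec.const (c + 1))) (Primrec.nat_sub.comp Primrec.id (Primrec.const 1)) Primrec.id)

/-- Conditional swap. -/
def cs (c : ℕ) (hc : c < 2) (P : ℕ → Bool) : Perm ℕ :=
  Function.Involutive.toPerm (fun n => bif P (n / 3) then tw c n else n) (fun n => by
    cases h : P (n / 3) <;> simp [h, tw_div c n hc, tw_tw c n hc])

theorem cs_apply (c : ℕ) (hc : c < 2) (P : ℕ → Bool) (n : ℕ) :
    cs c hc P n = bif P (n / 3) then tw c n else n := rfl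

theorem cs_div (c : ℕ) (hc : c < 2) (P : ℕ → Bool) (n : ℕ) : cs c hc P n / 3 = n / 3 := by
  rw [cs_apply]
  cases P (n / 3) <;> simp [tw_div c n hc]

theorem cs_mem (c : ℕ) (hc : c < 2) (P : ℕ → Bool) (hP : Primrec P) : cs c hc P ∈ GG := by
  refine memG _ ?_ (fun a => by simp only [row, cs_div]) (fun a b => by simp only [col, cs_div])
  exact (Primrec.cond (hP.comp (Primrec.nat_div.comp Primrec.id (Primrec.const 3)))
    (tw_primrec c) Primrec.id).to_comp

/-- Swap on one column. -/
def QQ (n : ℕ) : Perm ℕ := cs 0 (by norm_num) (fun x => decide (x.unpair.1 = 2 * n))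

theorem QQ_succ (n : ℕ) : sP * QQ n = QQ (n + 1) * sP := by
  ext m
  have h1 : (col (sP m) = 2 * (n + 1)) ↔ col m = 2 * n := by
    rw [col_sP]
    unfold sh; split_ifs <;> constructor <;> intro h <;> first | omega | contradiction
  simp only [Perm.mul_apply, QQ, cs_apply]
  change sP (bif decide (col m = 2 * n) then _ else _) =
    bif decide (col (sP m) = 2 * (n + 1)) then _ else _
  by_cases h : col m = 2 * n
  · simp only [h1, h, decide_true, cond_true]
    have h2 := tw_div 0 m (by norm_num)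
    simp only [sP_apply, col, row, h2]
    generalize Nat.pair _ _ = t
    unfold tw; split_ifs <;> omega
  · simp only [h1, h, decide_false, cond_false]

theorem QQ_eq (n : ℕ) : sP ^ n * QQ 0 * (sP ^ n)⁻¹ = QQ n := by
  induction n with
  | zero => simp
  | succ n ih =>
    have : QQ (n + 1) = sP * QQ n * sP⁻¹ := by rw [QQ_succ]; simp
    rw [this, ← ih, pow_succ']
    simp [mul_assoc]

open Nat.Partrec in
/-- The halting pattern. -/
def hP (x : ℕ) : Bool :=
  (Code.evaln x.unpair.2 (Denumerable.ofNat Code (x.unpair.1 / 2)) 0).isSome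

open Nat.Partrec in
theorem hP_primrec : Primrec hP :=
  Primrec.option_isSome.comp (Code.primrec_evaln.comp
    (((Primrec.snd.comp Primrec.unpair).pair ((Primrec.ofNat Code).comp
      (Primrec.nat_div.comp (Primrec.fst.comp Primrec.unpair) (Primrec.const 2)))).pair
        (Primrec.const 0)))

/-- The halting automorphism. -/
def pP : Perm ℕ := cs 1 (by norm_num) hP

open Nat.Partrec in
theorem comm_iff (n : ℕ) :
    pP * QQ n = QQ n * pP ↔ ¬ ((Denumerable.ofNat Code n).eval 0).Dom := by
  constructor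
  · intro h hd
    obtain ⟨k, hk⟩ := Code.evaln_complete.1 (Part.get_mem hd)
    have h1 : hP (Nat.pair (2 * n) k) = true := by
      simp only [hP, Nat.unpair_pair, Nat.mul_div_cancel_left n (show 0 < 2 by norm_num)]
      rw [Option.mem_def.1 hk]; rfl
    have h2 := congrArg (fun σ : Perm ℕ => σ (3 * Nat.pair (2 * n) k + 0)) h
    simp only [Perm.mul_apply] at h2
    rw [pP, QQ, cs_apply, cs_apply 0 _ _ (cs _ _ _ _), cs_div, cs_div, cs_apply, cs_apply,
      pt_div _ _ (by norm_num), h1] at h2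
    simp only [Nat.unpair_pair, decide_true, cond_true] at h2
    generalize Nat.pair _ _ = t at h2
    unfold tw at h2; split_ifs at h2 <;> omega
  · intro hd
    ext m
    simp only [Perm.mul_apply]
    rw [pP, QQ, cs_apply, cs_apply 0 _ _ (cs _ _ _ _), cs_div, cs_div, cs_apply, cs_apply]
    by_cases h : (m / 3).unpair.1 = 2 * n
    · have h1 : hP (m / 3) = false := by
        rw [← Bool.not_eq_true]
        intro h2
        simp only [hP, h, Nat.mul_div_cancel_left n (show 0 < 2 by norm_num)] at h2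
        obtain ⟨v, hv⟩ := Option.isSome_iff_exists.1 h2
        exact hd (Part.dom_iff_mem.2 ⟨v, Code.evaln_sound hv⟩)
      simp [h1]
    · simp [h]

end Pool.Agent.H.MP_7acc36_lc
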